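import Pool.Agent.R920.MT.Main
import Pool.Agent.Y133.Half.Abs
import Pool.Agent.R920.PL.Law

/-!
# Motivated classes are absolute Hodge, and the tower law
-/

open CategoryTheory AlgebraicGeometry Filter Topology

open scoped ENNReal

universe u v

namespace Pool.Agent.J4H47.AH

open Module
open Pool.Agent.H914 Pool.Agent.H914.VarClass Pool.Agent.H914.VarClass.Obj
  Pool.Agent.H914.WeilCohomology Pool.Agent.Y133.Hdg Pool.Agent.Y133.Abs Pool.Agent.R920.MT
open Pool.Agent.Y133.Half (ClassPred)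
open Pool.Agent.R920.PL (deg)

variable {k : Type u} [Field k] {𝒱 : VarClass k} {ops : CycleOps 𝒱}
  {W : WeilCohomology.{u, v} ops} {X Y : 𝒱.Obj}

/-- If one divisor lifts the classes of `Q`, then every divisor with the hard Lefschetz theorem
does. -/
lemma lift_any (Q : ClassPred W) {D₀ D : X.Cycles} {j : ℕ} (hj : 2 * j ≤ X.dim)
    (hD₀ : X.IsCyc 1 D₀)
    (h₀ : ∀ v, Q.P X (X.dim - j) v → ∃ x, Q.P X j x ∧ W.cl X D₀ ^ (X.dim - 2 * j) * x = v)
    (hD : X.IsCyc 1 D) (hL : HardLefschetz W X D) {x : W.H X} (hx : x ∈ W.gr X (2 * j))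
    (h : Q.P X (X.dim - j) (W.cl X D ^ (X.dim - 2 * j) * x)) : Q.P X j x := by
  obtain ⟨m, hm⟩ : ∃ m, m = X.dim - 2 * j := ⟨_, rfl⟩
  rw [← hm] at h h₀
  have hmap : ∀ {E : X.Cycles}, X.IsCyc 1 E → ∀ y ∈ deg Q X j,
      LinearMap.mulLeft W.K (W.cl X E ^ m) y ∈ deg Q X (X.dim - j) := by
    intro E hE y hy
    have h1 : Q.P X (1 * m) (W.cl X E ^ m) := ClassPred.pow (Q.cl hE) m
    have h2 := Q.mul h1 hy
    rw [show 1 * m + j = X.dim - j by omega] at h2
    exact h2
  let f₀ : deg Q X j →ₗ[W.K] deg Q X (X.dim - j) :=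
    (LinearMap.mulLeft W.K (W.cl X D₀ ^ m)).restrict (hmap hD₀)
  let f : deg Q X j →ₗ[W.K] deg Q X (X.dim - j) :=
    (LinearMap.mulLeft W.K (W.cl X D ^ m)).restrict (hmap hD)
  have hs : Function.Surjective f₀ := by
    rintro ⟨v, hv⟩
    obtain ⟨y, hy, hyv⟩ := h₀ v hv
    exact ⟨⟨y, hy⟩, Subtype.ext hyv⟩
  have hinj : ∀ y ∈ W.gr X (2 * j), W.cl X D ^ m * y = 0 → y = 0 := by
    intro y hy h1
    apply (hL (2 * j) hj).1 y hy
    rw [LinearMap.pow_mulLeft, LinearMap.mulLeft_apply, ← hm]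
    exact h1
  have hi : Function.Injective f := by
    rw [← LinearMap.ker_eq_bot, LinearMap.ker_eq_bot']
    rintro ⟨y, hy⟩ h1
    apply Subtype.ext
    exact hinj y (Q.gr hy) (congrArg Subtype.val h1)
  have hle : finrank W.K (deg Q X (X.dim - j)) ≤ finrank W.K (deg Q X j) :=
    LinearMap.finrank_le_finrank_of_surjective hs
  have hge : finrank W.K (deg Q X j) ≤ finrank W.K (deg Q X (X.dim - j)) :=
    LinearMap.finrank_le_finrank_of_injective hi
  have hsurj : Function.Surjective f :=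
    (LinearMap.injective_iff_surjective_of_finrank_eq_finrank (le_antisymm hge hle)).1 hi
  obtain ⟨⟨y, hy⟩, hyx⟩ := hsurj ⟨_, h⟩
  have h2 : W.cl X D ^ m * y = W.cl X D ^ m * x := congrArg Subtype.val hyx
  have h3 : y - x = 0 := by
    apply hinj _ (Submodule.sub_mem _ (Q.gr hy) hx)
    rw [mul_sub, h2, sub_self]
  rw [← sub_eq_zero.1 h3]
  exact hy

variable [Algebra W.K ℝ] {Ψ : HodgeStr W} (C : Conjugates W Ψ)

/-- The absolute Hodge classes form a system. -/
lemma isSystem_abs : IsSystem (W := W) (IsAbsHodge C) where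
  lin X j := ⟨deg (absPred C) X j, fun _ => Iff.rfl⟩
  cl _ _ _ hz := (absPred C).cl hz
  mul _ _ _ _ _ ha hb := (absPred C).mul ha hb
  map _ _ f _ _ h := (absPred C).map f h
  push _ _ f _ _ _ hl h := (absPred C).push f hl h
  lift X D j hD hL hj x hx h := by
    obtain ⟨D₀, h₀⟩ := abs_hr C X
    exact lift_any (absPred C) hj h₀.cyc (h₀.lift j hj) hD hL hx h

/-- Motivated classes are absolute Hodge classes. -/
lemma mot_abs {j : ℕ} {c : W.H X} (h : IsMotivated W X j c) : IsAbsHodge C X j c :=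
  h _ (isSystem_abs C)

/-- The motivated classes satisfy the Hodge-Riemann relations. -/
lemma mot_hr (Ψ : HodgeStr W) (hmot : ∀ (X : 𝒱.Obj) (j : ℕ) (c : W.H X),
    IsMotivated W X j c → IsHodge Ψ X j c) (X : 𝒱.Obj) : ∃ D, (motPred W).HR X D := by
  obtain ⟨L, ⟨D, hD, rfl⟩, hpol⟩ := Ψ.polar X
  refine ⟨D, hD, fun j hj v hv => ?_, fun j hj x hx => ?_⟩
  · have h0 : v ∈ W.gr X (2 * X.dim - 2 * j) := by
      have := (motPred W).gr hv
      rwa [show 2 * (X.dim - j) = 2 * X.dim - 2 * j by omega] at this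
    obtain ⟨x, hx, h⟩ := (hpol.hard (2 * j) hj).2 v h0
    rw [LinearMap.pow_mulLeft, LinearMap.mulLeft_apply] at h
    exact ⟨x, IsMotivated.lift hD hpol.hard hj hx (by rw [h]; exact hv), h⟩
  · exact hpol.pos j hj x (hmot X j x hx).1 (hmot X j x hx).2

section Num

open Pool.Agent.Y133.Half (HasIndex)

lemma eq_of_hasIndex {t s : ℕ → ℕ} {N M : ℕ∞} (h : HasIndex t s N) (h' : HasIndex t s M) :
    N = M := by
  have := tendsto_nhds_unique h h'
  exact_mod_cast this

lemma enat_mul_eq_one {N M : ℕ∞} : N * M = 1 ↔ N = 1 ∧ M = 1 := by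
  constructor
  · intro h
    have hN : N ≠ ⊤ := by
      rintro rfl
      rcases eq_or_ne M 0 with rfl | hM
      · simp at h
      · rw [ENat.top_mul hM] at h
        exact absurd h (by simp)
    have hM : M ≠ ⊤ := by
      rintro rfl
      rcases eq_or_ne N 0 with rfl | hN'
      · simp at h
      · rw [ENat.mul_top hN'] at h
        exact absurd h (by simp)
    lift N to ℕ using hN
    lift M to ℕ using hM
    have h1 : N * M = 1 := by exact_mod_cast h
    have h2 : N = 1 := Nat.eq_one_of_mul_eq_one_right h1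
    have h3 : M = 1 := by rwa [h2, one_mul] at h1
    exact ⟨by exact_mod_cast h2, by exact_mod_cast h3⟩
  · rintro ⟨rfl, rfl⟩
    exact one_mul 1

lemma enat_prime {N M : ℕ∞} {p : ℕ} (hp : p.Prime) (h : N * M = p) : N = 1 ∨ M = 1 := by
  have h0 : (p : ℕ∞) ≠ ⊤ := ENat.natCast_ne_top p
  have hp0 : (p : ℕ∞) ≠ 0 := by exact_mod_cast hp.ne_zero
  have hN : N ≠ ⊤ := by
    rintro rfl
    rcases eq_or_ne M 0 with rfl | hM
    · rw [mul_zero] at h; exact hp0 h.symm
    · rw [ENat.top_mul hM] at h; exact h0 h.symm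
  have hM : M ≠ ⊤ := by
    rintro rfl
    rcases eq_or_ne N 0 with rfl | hN'
    · rw [zero_mul] at h; exact hp0 h.symm
    · rw [ENat.mul_top hN'] at h; exact h0 h.symm
  lift N to ℕ using hN
  lift M to ℕ using hM
  have h1 : N * M = p := by exact_mod_cast h
  rcases Nat.Prime.eq_one_or_self_of_dvd hp N ⟨M, h1.symm⟩ with h2 | h2
  · left; exact_mod_cast h2
  · right
    have h3 : M = 1 := by
      apply Nat.eq_of_mul_eq_mul_left hp.pos
      rw [mul_one]
      rw [h2] at h1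
      exact h1
    exact_mod_cast h3

end Num

open Pool.Agent.Y133.Half (pw HasIndex dimBy cycRank algDim AtMostHalf GeneratedOver) in
/-- The tower law. -/
theorem tower3 (C : Conjugates W Ψ) (X : 𝒱.Obj) [Nontrivial (W.H X)] :
    ∃ P N M : ℕ∞, 1 ≤ P ∧ 1 ≤ N ∧ 1 ≤ M ∧
      HasIndex (fun n => dimBy W (IsHodge Ψ) (pw X n))
        (fun n => dimBy W (IsAbsHodge C) (pw X n)) P ∧
      HasIndex (fun n => dimBy W (IsAbsHodge C) (pw X n))
        (fun n => dimBy W (IsMotivated W) (pw X n)) N ∧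
      HasIndex (fun n => dimBy W (IsMotivated W) (pw X n)) (fun n => cycRank ops (pw X n)) M ∧
      HasIndex (fun n => dimBy W (IsAbsHodge C) (pw X n)) (fun n => cycRank ops (pw X n))
        (N * M) ∧
      HasIndex (fun n => dimBy W (IsHodge Ψ) (pw X n)) (fun n => cycRank ops (pw X n))
        (P * (N * M)) ∧
      (P = 1 ↔ ∀ n j c, IsHodge Ψ (pw X n) j c → IsAbsHodge C (pw X n) j c) ∧
      (N = 1 ↔ ∀ n j c, IsAbsHodge C (pw X n) j c → IsMotivated W (pw X n) j c) ∧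
      (M = 1 ↔ ∀ n j c, IsMotivated W (pw X n) j c → c ∈ spanCycles W (pw X n) j) ∧
      (N * M = 1 ↔ ∀ n j c, IsAbsHodge C (pw X n) j c → c ∈ spanCycles W (pw X n) j) ∧
      (N ≠ 1 → AtMostHalf (fun n => dimBy W (IsMotivated W) (pw X n))
        (fun n => dimBy W (IsAbsHodge C) (pw X n))) ∧
      (N ≠ ⊤ → GeneratedOver W (IsMotivated W) (IsAbsHodge C) X N) := by
  have hMA : ∀ {Z : 𝒱.Obj} {j : ℕ} {c : W.H Z}, (motPred W).P Z j c → (absPred C).P Z j c :=
    fun h => mot_abs C h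
  have hAH : ∀ {Z : 𝒱.Obj} {j : ℕ} {c : W.H Z}, (absPred C).P Z j c → (hodgePred Ψ).P Z j c :=
    fun h => h.1
  have nA : ∀ n, (absPred C).sys.Nondeg (pw X n) := fun n => by
    obtain ⟨D, hD⟩ := abs_hr C (pw X n)
    exact hD.nondeg
  have nM : ∀ n, (motPred W).sys.Nondeg (pw X n) := fun n => by
    obtain ⟨D, hD⟩ := mot_hr Ψ (fun X j c hc => (mot_abs C hc).1) (pw X n)
    exact hD.nondeg
  obtain ⟨N, M, h1, h2, h3, h4, h5, h6, h7, h8, h9, h10, h11⟩ :=
    (motPred W).tower (absPred C) hMA X nM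
  obtain ⟨P, M', k1, k2, k3, k4, k5, k6, k7, -, -, -, -⟩ :=
    (absPred C).tower (hodgePred Ψ) hAH X nA
  have e : M' = N * M := eq_of_hasIndex k4 h5
  subst e
  exact ⟨P, N, M, k1, h1, h2, k3, h3, h4, h5, k5, k6, h6, h7, k7, h8, h10⟩

end Pool.Agent.J4H47.AH
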